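import Pool.Agent.W261.QJ.Stm

/-! Project QJ: the homeomorphism of the self-similar arc piece (`S_glue`). -/

set_option autoImplicit false
open Filter Topology Set Metric

namespace Pool.Agent.W439.QJ.Glue

open Pool.Agent.W261.QJ

theorem LS_symm {A B : Set ℂ} (h : LS A B) : LS B A := by
  obtain ⟨C, hC, h⟩ := h
  refine ⟨C, hC, fun z hz z' hz' => ?_⟩
  rcases h z' hz' z hz with ⟨c, hc, h1⟩ | h1
  · left
    refine ⟨c, ⟨hc.2, hc.1⟩, ?_⟩
    rw [dist_comm z z']
    linarith
  · right
    rwa [dist_comm z z']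

theorem LS_disj {A B : Set ℂ} (hA : IsCompact A) (hB : IsCompact B) (h : Disjoint A B) :
    LS A B := by
  obtain ⟨r, hr, h1⟩ := Metric.exists_pos_forall_lt_edist hA hB.isClosed h
  have hr' : (0 : ℝ) < r := by exact_mod_cast hr
  refine ⟨1 / r, by positivity, fun z hz z' hz' => Or.inr ?_⟩
  have h2 := h1 z hz z' hz'
  rw [edist_dist, ← ENNReal.ofReal_coe_nnreal] at h2
  have h3 : (r : ℝ) < dist z z' := (ENNReal.ofReal_lt_ofReal_iff_of_nonneg r.2).1 h2
  rw [one_div_mul_eq_div, le_div_iff₀ hr']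
  linarith

theorem LS_union {A B C : Set ℂ} (h1 : LS A C) (h2 : LS B C) : LS (A ∪ B) C := by
  obtain ⟨c1, p1, h1⟩ := h1
  obtain ⟨c2, p2, h2⟩ := h2
  refine ⟨c1 + c2, by positivity, fun z hz z' hz' => ?_⟩
  have hd : 0 ≤ dist z z' := dist_nonneg
  rcases hz with hz | hz
  · rcases h1 z hz z' hz' with ⟨c, hc, h3⟩ | h3
    · exact Or.inl ⟨c, ⟨Or.inl hc.1, hc.2⟩, by nlinarith⟩
    · exact Or.inr (by nlinarith)
  · rcases h2 z hz z' hz' with ⟨c, hc, h3⟩ | h3
    · exact Or.inl ⟨c, ⟨Or.inr hc.1, hc.2⟩, by nlinarith⟩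
    · exact Or.inr (by nlinarith)

theorem LS_image {A B E : Set ℂ} {g : ℂ → ℂ} {L : ℝ} (hL0 : 0 < L)
    (hg : ∀ z ∈ E, ∀ w ∈ E, dist (g z) (g w) ≤ 2 / 3 * dist z w)
    (hL : ∀ z ∈ E, ∀ w ∈ E, dist z w ≤ L * dist (g z) (g w)) (hA : A ⊆ E) (hB : B ⊆ E)
    (h : LS A B) : LS (g '' A) (g '' B) := by
  obtain ⟨C, hC, h⟩ := h
  refine ⟨C * L, by positivity, ?_⟩
  rintro _ ⟨a, ha, rfl⟩ _ ⟨b, hb, rfl⟩
  have h1 := hL a (hA ha) b (hB hb)
  rcases h a ha b hb with ⟨c, hc, h2⟩ | h2
  · left
    refine ⟨g c, ⟨mem_image_of_mem _ hc.1, mem_image_of_mem _ hc.2⟩, ?_⟩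
    have h3 := hg a (hA ha) c (hA hc.1)
    have h4 := hg b (hB hb) c (hA hc.1)
    have h5 : 0 ≤ dist a c + dist b c := by positivity
    have h6 : C * dist a b ≤ C * (L * dist (g a) (g b)) := by gcongr
    linarith
  · right
    have h6 : C * dist a b ≤ C * (L * dist (g a) (g b)) := by gcongr
    linarith

/-- a positive distance to the points of a finite set outside two closed sets -/
theorem exists_dist {A B S : Set ℂ} (hA : IsClosed A) (hB : IsClosed B) (hS : S.Finite) :
    ∃ d : ℝ, 0 < d ∧ ∀ c ∈ S, c ∉ A ∩ B → (∀ z ∈ A, d ≤ dist z c) ∨ ∀ z ∈ B, d ≤ dist z c := by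
  induction S, hS using Set.Finite.induction_on with
  | empty => exact ⟨1, one_pos, fun c hc => absurd hc (Set.notMem_empty c)⟩
  | @insert c S _ _ ih =>
    obtain ⟨d, hd, ih⟩ := ih
    have key : ∀ D : Set ℂ, IsClosed D → c ∉ D → ∃ e : ℝ, 0 < e ∧ ∀ z ∈ D, e ≤ dist z c := by
      intro D hD hc
      obtain ⟨e, he, h1⟩ := Metric.isOpen_iff.1 hD.isOpen_compl c hc
      refine ⟨e, he, fun z hz => ?_⟩
      by_contra h2
      exact h1 (Metric.mem_ball.2 (not_le.1 h2)) hz
    by_cases hcA : c ∈ A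
    · by_cases hcB : c ∈ B
      · refine ⟨d, hd, fun c' hc' h2 => ?_⟩
        rcases hc' with rfl | hc'
        · exact absurd ⟨hcA, hcB⟩ h2
        · exact ih c' hc' h2
      · obtain ⟨e, he, h1⟩ := key B hB hcB
        refine ⟨min d e, lt_min hd he, fun c' hc' h2 => ?_⟩
        rcases hc' with rfl | hc'
        · exact Or.inr fun z hz => (min_le_right _ _).trans (h1 z hz)
        · exact (ih c' hc' h2).imp (fun h z hz => (min_le_left _ _).trans (h z hz))
            (fun h z hz => (min_le_left _ _).trans (h z hz))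
    · obtain ⟨e, he, h1⟩ := key A hA hcA
      refine ⟨min d e, lt_min hd he, fun c' hc' h2 => ?_⟩
      rcases hc' with rfl | hc'
      · exact Or.inl fun z hz => (min_le_right _ _).trans (h1 z hz)
      · exact (ih c' hc' h2).imp (fun h z hz => (min_le_left _ _).trans (h z hz))
          (fun h z hz => (min_le_left _ _).trans (h z hz))

theorem LS_mono {A B A1 B1 : Set ℂ} (h : LS A B) (hf : (A ∩ B).Finite) (hA : A1 ⊆ A) (hB : B1 ⊆ B)
    (cA : IsClosed A1) (cB : IsClosed B1) : LS A1 B1 := by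
  obtain ⟨C, hC, h⟩ := h
  obtain ⟨d, hd, hd1⟩ := exists_dist cA cB hf
  refine ⟨C + C / d, by positivity, fun z hz z' hz' => ?_⟩
  have h0 : 0 ≤ dist z z' := dist_nonneg
  have hCd : 0 < C / d := by positivity
  rcases h z (hA hz) z' (hB hz') with ⟨c, hc, h1⟩ | h1
  · by_cases hc1 : c ∈ A1 ∩ B1
    · exact Or.inl ⟨c, hc1, by nlinarith⟩
    · right
      have h2 : d ≤ dist z c + dist z' c := by
        rcases hd1 c hc hc1 with h3 | h3
        · have := h3 z hz
          have : 0 ≤ dist z' c := dist_nonneg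
          linarith
        · have := h3 z' hz'
          have : 0 ≤ dist z c := dist_nonneg
          linarith
      have h3 : d ≤ C * dist z z' := h2.trans h1
      have h4 : 1 ≤ C / d * dist z z' := by
        rw [div_mul_eq_mul_div, le_div_iff₀ hd]
        linarith
      nlinarith
  · right
    nlinarith

theorem main : S_glue := by
  intro hpw J E E' M x y gx gy H hEE hXM hMY
  obtain ⟨Lx, hLx0, hLx⟩ := H.lgx
  obtain ⟨Ly, hLy0, hLy⟩ := H.lgy
  set X := gx '' E with hX
  set Y := gy '' E with hY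
  have hXE : X ⊆ E := by
    rw [← H.part]
    exact fun z hz => Or.inl (Or.inl hz)
  have hME : M ⊆ E := by
    rw [← H.part]
    exact fun z hz => Or.inl (Or.inr hz)
  have hYE : Y ⊆ E := by
    rw [← H.part]
    exact fun z hz => Or.inr hz
  have hxE : x ∈ E ∩ E' := by rw [H.inter]; simp
  have hyE : y ∈ E ∩ E' := by rw [H.inter]; simp
  have injx : InjOn gx E := by
    intro a ha b hb hab
    have := hLx a ha b hb
    rw [hab, dist_self, mul_zero] at this
    exact dist_le_zero.1 this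
  have injy : InjOn gy E := by
    intro a ha b hb hab
    have := hLy a ha b hb
    rw [hab, dist_self, mul_zero] at this
    exact dist_le_zero.1 this
  have gxE : ∀ e ∈ E, gx e ∈ E := fun e he => hXE (mem_image_of_mem _ he)
  have gyE : ∀ e ∈ E, gy e ∈ E := fun e he => hYE (mem_image_of_mem _ he)
  have xX : x ∈ X := ⟨x, hxE.1, H.gxx⟩
  have yY : y ∈ Y := ⟨y, hyE.1, H.gyy⟩
  have xnY : x ∉ Y := fun h => Set.disjoint_left.1 H.i3 xX h
  have ynX : y ∉ X := fun h => Set.disjoint_left.1 H.i3 h yY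
  have cgx : ContinuousOn gx E := by
    refine LipschitzOnWith.continuousOn (K := 1) (LipschitzOnWith.of_dist_le_mul ?_)
    intro a ha b hb
    have := H.cgx a ha b hb
    have : 0 ≤ dist a b := dist_nonneg
    simp only [NNReal.coe_one, one_mul]
    linarith
  have cgy : ContinuousOn gy E := by
    refine LipschitzOnWith.continuousOn (K := 1) (LipschitzOnWith.of_dist_le_mul ?_)
    intro a ha b hb
    have := H.cgy a ha b hb
    have : 0 ≤ dist a b := dist_nonneg
    simp only [NNReal.coe_one, one_mul]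
    linarith
  have kX : IsCompact X := H.cE.image_of_continuousOn cgx
  have kY : IsCompact Y := H.cE.image_of_continuousOn cgy
  have kgx : ∀ A ⊆ E, IsCompact A → IsCompact (gx '' A) := fun A hA hc =>
    hc.image_of_continuousOn (cgx.mono hA)
  have kgy : ∀ A ⊆ E, IsCompact A → IsCompact (gy '' A) := fun A hA hc =>
    hc.image_of_continuousOn (cgy.mono hA)
  have hXM' : X ∪ M ⊆ E := union_subset hXE hME
  have hMY' : M ∪ Y ⊆ E := union_subset hME hYE
  -- intersections
  have i4 : (X ∪ M) ∩ Y = {gy x} := by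
    rw [union_inter_distrib_right, H.i3.inter_eq, empty_union, H.i2]
  have i5 : X ∩ (M ∪ Y) = {gx y} := by
    rw [inter_union_distrib_left, H.i3.inter_eq, union_empty, H.i1]
  -- the sets and the maps
  set gi : ℂ → ℂ := Function.invFunOn gx E with hgi
  set gj : ℂ → ℂ := Function.invFunOn gy E with hgj
  have gi_l : ∀ e ∈ E, gi (gx e) = e := fun e he => injx.leftInvOn_invFunOn he
  have gj_l : ∀ e ∈ E, gj (gy e) = e := fun e he => injy.leftInvOn_invFunOn he
  set P1 : Set ℂ := gx '' (X ∪ M) with hP1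
  set P2 : Set ℂ := gx '' Y with hP2
  set Q2 : Set ℂ := gy '' X with hQ2
  set Q3 : Set ℂ := gy '' (M ∪ Y) with hQ3
  set F2 : ℂ → ℂ := fun z => gy (gx (gj (gi z))) with hF2
  have F2v : ∀ e ∈ E, F2 (gx (gy e)) = gy (gx e) := by
    intro e he
    simp only [hF2]
    rw [gi_l _ (gyE e he), gj_l e he]
  have P1X : P1 ⊆ X := image_mono hXM'
  have P2X : P2 ⊆ X := image_mono hYE
  have Q2Y : Q2 ⊆ Y := image_mono hXE
  have Q3Y : Q3 ⊆ Y := image_mono hMY'
  have hin : ∀ z, z ∈ E → z ∈ E' → z = x ∨ z = y := by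
    intro z h1 h2
    have : z ∈ ({x, y} : Set ℂ) := by rw [← H.inter]; exact ⟨h1, h2⟩
    simpa using this
  -- P0 ∩ P1 etc
  have p01 : E' ∩ P1 = {x} := by
    refine Subset.antisymm ?_ ?_
    · rintro z ⟨h1, h2⟩
      rcases hin z (hXE (P1X h2)) h1 with rfl | rfl
      · rfl
      · exact absurd (P1X h2) ynX
    · intro z hz
      rw [mem_singleton_iff] at hz
      rw [hz]
      exact ⟨hxE.2, x, Or.inl xX, H.gxx⟩
  have p02 : E' ∩ P2 = ∅ := by
    rw [eq_empty_iff_forall_notMem]
    rintro z ⟨h1, h2⟩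
    rcases hin z (hXE (P2X h2)) h1 with rfl | rfl
    · obtain ⟨e, he, h3⟩ := h2
      have : e = z := injx (hYE he) hxE.1 (h3.trans H.gxx.symm)
      rw [this] at he
      exact xnY he
    · exact absurd (P2X h2) ynX
  have p03 : E' ∩ (M ∪ Y) = {y} := by
    refine Subset.antisymm ?_ ?_
    · rintro z ⟨h1, h2⟩
      rcases hin z (hMY' h2) h1 with rfl | rfl
      · rcases h2 with h2 | h2
        · exact absurd h2 H.xM
        · exact absurd h2 xnY
      · rfl
    · rintro _ rfl
      exact ⟨hyE.2, Or.inr yY⟩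
  have p12 : P1 ∩ P2 = {gx (gy x)} := by
    rw [hP1, hP2, ← injx.image_inter hXM' hYE, i4, image_singleton]
  have p13 : P1 ∩ (M ∪ Y) = ∅ := by
    rw [eq_empty_iff_forall_notMem]
    rintro z ⟨h1, h2⟩
    have h3 : z ∈ X ∩ (M ∪ Y) := ⟨P1X h1, h2⟩
    rw [i5, mem_singleton_iff] at h3
    obtain ⟨e, he, h4⟩ := h1
    have : e = y := injx (hXM' he) hyE.1 (h4.trans h3)
    rw [this] at he
    rcases he with he | he
    · exact ynX he
    · exact H.yM he
  have p23 : P2 ∩ (M ∪ Y) = {gx y} := by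
    refine Subset.antisymm ?_ ?_
    · rintro z ⟨h1, h2⟩
      have h3 : z ∈ X ∩ (M ∪ Y) := ⟨P2X h1, h2⟩
      rwa [i5] at h3
    · rintro _ rfl
      refine ⟨mem_image_of_mem _ yY, ?_⟩
      have h3 : gx y ∈ X ∩ (M ∪ Y) := by rw [i5]; rfl
      exact h3.2
  have q01 : E' ∩ (X ∪ M) = {x} := by
    refine Subset.antisymm ?_ ?_
    · rintro z ⟨h1, h2⟩
      rcases hin z (hXM' h2) h1 with rfl | rfl
      · rfl
      · rcases h2 with h2 | h2
        · exact absurd h2 ynX
        · exact absurd h2 H.yM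
    · rintro _ rfl
      exact ⟨hxE.2, Or.inl xX⟩
  have q02 : E' ∩ Q2 = ∅ := by
    rw [eq_empty_iff_forall_notMem]
    rintro z ⟨h1, h2⟩
    rcases hin z (hYE (Q2Y h2)) h1 with rfl | rfl
    · exact absurd (Q2Y h2) xnY
    · obtain ⟨e, he, h3⟩ := h2
      have : e = z := injy (hXE he) hyE.1 (h3.trans H.gyy.symm)
      rw [this] at he
      exact ynX he
  have q03 : E' ∩ Q3 = {y} := by
    refine Subset.antisymm ?_ ?_
    · rintro z ⟨h1, h2⟩
      rcases hin z (hYE (Q3Y h2)) h1 with rfl | rfl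
      · exact absurd (Q3Y h2) xnY
      · rfl
    · intro z hz
      rw [mem_singleton_iff] at hz
      rw [hz]
      exact ⟨hyE.2, y, Or.inr yY, H.gyy⟩
  have q12 : (X ∪ M) ∩ Q2 = {gy x} := by
    refine Subset.antisymm ?_ ?_
    · rintro z ⟨h1, h2⟩
      have h3 : z ∈ (X ∪ M) ∩ Y := ⟨h1, Q2Y h2⟩
      rwa [i4] at h3
    · rintro _ rfl
      have h3 : gy x ∈ (X ∪ M) ∩ Y := by rw [i4]; rfl
      exact ⟨h3.1, mem_image_of_mem _ xX⟩
  have q13 : (X ∪ M) ∩ Q3 = ∅ := by
    rw [eq_empty_iff_forall_notMem]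
    rintro z ⟨h1, h2⟩
    have h3 : z ∈ (X ∪ M) ∩ Y := ⟨h1, Q3Y h2⟩
    rw [i4, mem_singleton_iff] at h3
    obtain ⟨e, he, h4⟩ := h2
    have : e = x := injy (hMY' he) hxE.1 (h4.trans h3)
    rw [this] at he
    rcases he with he | he
    · exact H.xM he
    · exact xnY he
  have q23 : Q2 ∩ Q3 = {gy (gx y)} := by
    rw [hQ2, hQ3, ← injy.image_inter hXE hMY', i5, image_singleton]
  -- linear separation
  have kP1 : IsCompact P1 := kgx _ hXM' (kX.union H.cM)
  have kP2 : IsCompact P2 := kgx _ hYE kY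
  have kQ2 : IsCompact Q2 := kgy _ hXE kX
  have kQ3 : IsCompact Q3 := kgy _ hMY' (H.cM.union kY)
  have lsE : LS E' E := LS_symm hEE
  have fE : (E' ∩ E).Finite := by
    rw [inter_comm, H.inter]
    exact (finite_singleton y).insert x
  have lsXY : LS X Y := LS_disj kX kY H.i3
  have lsb : LS (X ∪ M) Y := LS_union lsXY hMY
  have lsc : LS X (M ∪ Y) := LS_symm (LS_union (LS_symm hXM) (LS_symm lsXY))
  have fb : ((X ∪ M) ∩ Y).Finite := by rw [i4]; exact finite_singleton _
  have fc : (X ∩ (M ∪ Y)).Finite := by rw [i5]; exact finite_singleton _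
  have l01 : LS E' P1 := LS_mono lsE fE Subset.rfl (P1X.trans hXE) H.cE'.isClosed kP1.isClosed
  have l02 : LS E' P2 := LS_mono lsE fE Subset.rfl (P2X.trans hXE) H.cE'.isClosed kP2.isClosed
  have l03 : LS E' (M ∪ Y) := LS_mono lsE fE Subset.rfl hMY' H.cE'.isClosed
    (H.cM.union kY).isClosed
  have l12 : LS P1 P2 := LS_image hLx0 H.cgx hLx hXM' hYE lsb
  have l13 : LS P1 (M ∪ Y) := LS_mono lsc fc P1X Subset.rfl kP1.isClosed
    (H.cM.union kY).isClosed
  have l23 : LS P2 (M ∪ Y) := LS_mono lsc fc P2X Subset.rfl kP2.isClosed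
    (H.cM.union kY).isClosed
  have m01 : LS E' (X ∪ M) := LS_mono lsE fE Subset.rfl hXM' H.cE'.isClosed
    (kX.union H.cM).isClosed
  have m02 : LS E' Q2 := LS_mono lsE fE Subset.rfl (Q2Y.trans hYE) H.cE'.isClosed kQ2.isClosed
  have m03 : LS E' Q3 := LS_mono lsE fE Subset.rfl (Q3Y.trans hYE) H.cE'.isClosed kQ3.isClosed
  have m12 : LS (X ∪ M) Q2 := LS_mono lsb fb Subset.rfl Q2Y (kX.union H.cM).isClosed kQ2.isClosed
  have m13 : LS (X ∪ M) Q3 := LS_mono lsb fb Subset.rfl Q3Y (kX.union H.cM).isClosed kQ3.isClosed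
  have m23 : LS Q2 Q3 := LS_image hLy0 H.cgy hLy hXE hMY' lsc
  -- bounds
  obtain ⟨L, hL1, hLLx, hLLy, hLxy⟩ : ∃ L : ℝ, 1 ≤ L ∧ Lx ≤ L ∧ Ly ≤ L ∧ Lx * Ly ≤ L := by
    refine ⟨(1 + Lx) * (1 + Ly), ?_, ?_, ?_, ?_⟩ <;> nlinarith [mul_pos hLx0 hLy0]
  have hL0 : 0 < L := by linarith
  have bxl : ∀ e ∈ E, ∀ e' ∈ E, dist e e' ≤ L * dist (gx e) (gx e') := fun e he e' he' =>
    (hLx e he e' he').trans (mul_le_mul_of_nonneg_right hLLx dist_nonneg)
  have byl : ∀ e ∈ E, ∀ e' ∈ E, dist e e' ≤ L * dist (gy e) (gy e') := fun e he e' he' =>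
    (hLy e he e' he').trans (mul_le_mul_of_nonneg_right hLLy dist_nonneg)
  have small : ∀ {u v : ℝ}, 0 ≤ v → u ≤ 2 / 3 * v → u ≤ L * v := by
    intro u v hv hu
    nlinarith
  have b2a : ∀ e ∈ E, ∀ e' ∈ E, dist (gy (gx e)) (gy (gx e')) ≤
      L * dist (gx (gy e)) (gx (gy e')) := by
    intro e he e' he'
    have h1 := H.cgy _ (gxE e he) _ (gxE e' he')
    have h2 := H.cgx e he e' he'
    have h3 := hLy e he e' he'
    have h4 := hLx _ (gyE e he) _ (gyE e' he')
    have h5 : Ly * dist (gy e) (gy e') ≤ Ly * (Lx * dist (gx (gy e)) (gx (gy e'))) := by gcongr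
    have h6 : (Lx * Ly) * dist (gx (gy e)) (gx (gy e')) ≤ L * dist (gx (gy e)) (gx (gy e')) :=
      mul_le_mul_of_nonneg_right hLxy dist_nonneg
    have h7 : (0 : ℝ) ≤ dist e e' := dist_nonneg
    nlinarith
  have b2b : ∀ e ∈ E, ∀ e' ∈ E, dist (gx (gy e)) (gx (gy e')) ≤
      L * dist (gy (gx e)) (gy (gx e')) := by
    intro e he e' he'
    have h1 := H.cgx _ (gyE e he) _ (gyE e' he')
    have h2 := H.cgy e he e' he'
    have h3 := hLx e he e' he'
    have h4 := hLy _ (gxE e he) _ (gxE e' he')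
    have h5 : Lx * dist (gx e) (gx e') ≤ Lx * (Ly * dist (gy (gx e)) (gy (gx e'))) := by gcongr
    have h6 : (Lx * Ly) * dist (gy (gx e)) (gy (gx e')) ≤ L * dist (gy (gx e)) (gy (gx e')) :=
      mul_le_mul_of_nonneg_right hLxy dist_nonneg
    have h7 : (0 : ℝ) ≤ dist e e' := dist_nonneg
    nlinarith
  -- assembling
  have JE : ∀ z, z ∈ J ↔ z ∈ E ∨ z ∈ E' := fun z => by rw [← H.union]; rfl
  have EX : ∀ z, z ∈ E ↔ (z ∈ X ∨ z ∈ M) ∨ z ∈ Y := fun z => by
    conv_lhs => rw [← H.part]
    rfl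
  have X12 : ∀ z, z ∈ X → z ∈ P1 ∨ z ∈ P2 := by
    rintro z ⟨e, he, rfl⟩
    rcases (EX e).1 he with h | h
    · exact Or.inl (mem_image_of_mem _ h)
    · exact Or.inr (mem_image_of_mem _ h)
  have Y23 : ∀ z, z ∈ Y → z ∈ Q2 ∨ z ∈ Q3 := by
    rintro z ⟨e, he, rfl⟩
    rcases (EX e).1 he with (h | h) | h
    · exact Or.inl (mem_image_of_mem _ h)
    · exact Or.inr (mem_image_of_mem _ (Or.inl h))
    · exact Or.inr (mem_image_of_mem _ (Or.inr h))
  have big : ∃ h : J ≃ₜ J, (∀ i, ∀ z : J, (z : ℂ) ∈ (![E', P1, P2, M ∪ Y] : Fin 4 → Set ℂ) i →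
      ((h z : J) : ℂ) = (![id, gi, F2, gy] : Fin 4 → ℂ → ℂ) i z) ∧
      ∃ L' : ℝ, 1 ≤ L' ∧ (∀ z w : J, dist (h z) (h w) ≤ L' * dist z w) ∧
        (∀ z w : J, dist z w ≤ L' * dist (h z) (h w)) := by
    refine hpw J ![E', P1, P2, M ∪ Y] ![E', X ∪ M, Q2, Q3] ![id, gi, F2, gy] L
      ?_ ?_ ?_ ?_ ?_ ?_ ?_ ?_ ?_ ?_
    · rw [← H.union]
      exact (H.cE.union H.cE').isBounded
    · refine Subset.antisymm (iUnion_subset fun i => ?_) fun z hz => ?_
      · fin_cases i
        · exact fun z hz => (JE z).2 (Or.inr hz)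
        · exact fun z hz => (JE z).2 (Or.inl (hXE (P1X hz)))
        · exact fun z hz => (JE z).2 (Or.inl (hXE (P2X hz)))
        · exact fun z hz => (JE z).2 (Or.inl (hMY' hz))
      · rcases (JE z).1 hz with hz | hz
        · rcases (EX z).1 hz with (hz | hz) | hz
          · rcases X12 z hz with hz | hz
            · exact mem_iUnion.2 ⟨1, hz⟩
            · exact mem_iUnion.2 ⟨2, hz⟩
          · exact mem_iUnion.2 ⟨3, Or.inl hz⟩
          · exact mem_iUnion.2 ⟨3, Or.inr hz⟩
        · exact mem_iUnion.2 ⟨0, hz⟩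
    · refine Subset.antisymm (iUnion_subset fun i => ?_) fun z hz => ?_
      · fin_cases i
        · exact fun z hz => (JE z).2 (Or.inr hz)
        · exact fun z hz => (JE z).2 (Or.inl (hXM' hz))
        · exact fun z hz => (JE z).2 (Or.inl (hYE (Q2Y hz)))
        · exact fun z hz => (JE z).2 (Or.inl (hYE (Q3Y hz)))
      · rcases (JE z).1 hz with hz | hz
        · rcases (EX z).1 hz with (hz | hz) | hz
          · exact mem_iUnion.2 ⟨1, Or.inl hz⟩
          · exact mem_iUnion.2 ⟨1, Or.inr hz⟩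
          · rcases Y23 z hz with hz | hz
            · exact mem_iUnion.2 ⟨2, hz⟩
            · exact mem_iUnion.2 ⟨3, hz⟩
        · exact mem_iUnion.2 ⟨0, hz⟩
    · intro i
      fin_cases i
      · exact image_id E'
      · change gi '' (gx '' (X ∪ M)) = X ∪ M
        rw [image_image]
        refine Subset.antisymm ?_ ?_
        · rintro _ ⟨e, he, rfl⟩
          change gi (gx e) ∈ X ∪ M
          rw [gi_l e (hXM' he)]
          exact he
        · intro e he
          exact ⟨e, he, gi_l e (hXM' he)⟩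
      · change F2 '' (gx '' (gy '' E)) = gy '' (gx '' E)
        rw [image_image, image_image, image_image]
        exact image_congr fun e he => F2v e he
      · rfl
    · intro i
      fin_cases i
      · intro z _ w _
        change dist z w ≤ L * dist z w
        have : 0 ≤ dist z w := dist_nonneg
        nlinarith
      · rintro _ ⟨e, he, rfl⟩ _ ⟨e', he', rfl⟩
        change dist (gi (gx e)) (gi (gx e')) ≤ L * dist (gx e) (gx e')
        rw [gi_l e (hXM' he), gi_l e' (hXM' he')]
        exact bxl e (hXM' he) e' (hXM' he')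
      · rintro _ ⟨_, ⟨e, he, rfl⟩, rfl⟩ _ ⟨_, ⟨e', he', rfl⟩, rfl⟩
        change dist (F2 (gx (gy e))) (F2 (gx (gy e'))) ≤ L * dist (gx (gy e)) (gx (gy e'))
        rw [F2v e he, F2v e' he']
        exact b2a e he e' he'
      · intro z hz w hw
        exact small dist_nonneg (H.cgy z (hMY' hz) w (hMY' hw))
    · intro i
      fin_cases i
      · intro z _ w _
        change dist z w ≤ L * dist z w
        have : 0 ≤ dist z w := dist_nonneg
        nlinarith
      · rintro _ ⟨e, he, rfl⟩ _ ⟨e', he', rfl⟩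
        change dist (gx e) (gx e') ≤ L * dist (gi (gx e)) (gi (gx e'))
        rw [gi_l e (hXM' he), gi_l e' (hXM' he')]
        exact small dist_nonneg (H.cgx e (hXM' he) e' (hXM' he'))
      · rintro _ ⟨_, ⟨e, he, rfl⟩, rfl⟩ _ ⟨_, ⟨e', he', rfl⟩, rfl⟩
        change dist (gx (gy e)) (gx (gy e')) ≤ L * dist (F2 (gx (gy e))) (F2 (gx (gy e')))
        rw [F2v e he, F2v e' he']
        exact b2b e he e' he'
      · intro z hz w hw
        exact byl z (hMY' hz) w (hMY' hw)
    · -- images of intersections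
      have c01 : id '' (E' ∩ P1) = E' ∩ (X ∪ M) := by rw [p01, q01, image_id]
      have c10 : gi '' (P1 ∩ E') = (X ∪ M) ∩ E' := by
        rw [inter_comm, p01, inter_comm, q01, image_singleton]
        rw [show gi x = x from by
          conv_lhs => rw [← H.gxx]
          exact gi_l x hxE.1]
      have c02 : id '' (E' ∩ P2) = E' ∩ Q2 := by rw [p02, q02, image_empty]
      have c20 : F2 '' (P2 ∩ E') = Q2 ∩ E' := by
        rw [inter_comm, p02, inter_comm, q02, image_empty]
      have c03 : id '' (E' ∩ (M ∪ Y)) = E' ∩ Q3 := by rw [p03, q03, image_id]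
      have c30 : gy '' ((M ∪ Y) ∩ E') = Q3 ∩ E' := by
        rw [inter_comm, p03, inter_comm, q03, image_singleton, H.gyy]
      have c12 : gi '' (P1 ∩ P2) = (X ∪ M) ∩ Q2 := by
        rw [p12, q12, image_singleton, gi_l _ (gyE x hxE.1)]
      have c21 : F2 '' (P2 ∩ P1) = Q2 ∩ (X ∪ M) := by
        rw [inter_comm, p12, inter_comm, q12, image_singleton, F2v x hxE.1, H.gxx]
      have c13 : gi '' (P1 ∩ (M ∪ Y)) = (X ∪ M) ∩ Q3 := by rw [p13, q13, image_empty]
      have c31 : gy '' ((M ∪ Y) ∩ P1) = Q3 ∩ (X ∪ M) := by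
        rw [inter_comm, p13, inter_comm, q13, image_empty]
      have F2y : F2 (gx y) = gy (gx y) := by
        have := F2v y hyE.1
        rwa [H.gyy] at this
      have c23 : F2 '' (P2 ∩ (M ∪ Y)) = Q2 ∩ Q3 := by
        rw [p23, q23, image_singleton, F2y]
      have c32 : gy '' ((M ∪ Y) ∩ P2) = Q3 ∩ Q2 := by
        rw [inter_comm, p23, inter_comm, q23, image_singleton]
      intro i j hij
      fin_cases i <;> fin_cases j
      · exact absurd rfl hij
      · exact c01
      · exact c02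
      · exact c03
      · exact c10
      · exact absurd rfl hij
      · exact c12
      · exact c13
      · exact c20
      · exact c21
      · exact absurd rfl hij
      · exact c23
      · exact c30
      · exact c31
      · exact c32
      · exact absurd rfl hij
    · -- the maps agree
      have gix : gi x = x := by
        conv_lhs => rw [← H.gxx]
        exact gi_l x hxE.1
      have F2y : F2 (gx y) = gy (gx y) := by
        have := F2v y hyE.1
        rwa [H.gyy] at this
      have a01 : ∀ z ∈ E' ∩ P1, z = gi z := by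
        intro z hz
        rw [p01, mem_singleton_iff] at hz
        rw [hz, gix]
      have a02 : ∀ z ∈ E' ∩ P2, z = F2 z := by
        intro z hz
        rw [p02] at hz
        exact absurd hz (notMem_empty z)
      have a03 : ∀ z ∈ E' ∩ (M ∪ Y), z = gy z := by
        intro z hz
        rw [p03, mem_singleton_iff] at hz
        rw [hz, H.gyy]
      have a12 : ∀ z ∈ P1 ∩ P2, gi z = F2 z := by
        intro z hz
        rw [p12, mem_singleton_iff] at hz
        rw [hz, gi_l _ (gyE x hxE.1), F2v x hxE.1, H.gxx]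
      have a13 : ∀ z ∈ P1 ∩ (M ∪ Y), gi z = gy z := by
        intro z hz
        rw [p13] at hz
        exact absurd hz (notMem_empty z)
      have a23 : ∀ z ∈ P2 ∩ (M ∪ Y), F2 z = gy z := by
        intro z hz
        rw [p23, mem_singleton_iff] at hz
        rw [hz, F2y]
      intro i j z hz
      fin_cases i <;> fin_cases j
      · rfl
      · exact a01 z hz
      · exact a02 z hz
      · exact a03 z hz
      · exact (a01 z hz.symm).symm
      · rfl
      · exact a12 z hz
      · exact a13 z hz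
      · exact (a02 z hz.symm).symm
      · exact (a12 z hz.symm).symm
      · rfl
      · exact a23 z hz
      · exact (a03 z hz.symm).symm
      · exact (a13 z hz.symm).symm
      · exact (a23 z hz.symm).symm
      · rfl
    · intro i j hij
      fin_cases i <;> fin_cases j
      · exact absurd rfl hij
      · exact l01
      · exact l02
      · exact l03
      · exact LS_symm l01
      · exact absurd rfl hij
      · exact l12
      · exact l13
      · exact LS_symm l02
      · exact LS_symm l12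
      · exact absurd rfl hij
      · exact l23
      · exact LS_symm l03
      · exact LS_symm l13
      · exact LS_symm l23
      · exact absurd rfl hij
    · intro i j hij
      fin_cases i <;> fin_cases j
      · exact absurd rfl hij
      · exact m01
      · exact m02
      · exact m03
      · exact LS_symm m01
      · exact absurd rfl hij
      · exact m12
      · exact m13
      · exact LS_symm m02
      · exact LS_symm m12
      · exact absurd rfl hij
      · exact m23
      · exact LS_symm m03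
      · exact LS_symm m13
      · exact LS_symm m23
      · exact absurd rfl hij
  obtain ⟨h, hv, L', hL', hl1, hl2⟩ := big
  have horb : ∀ j, gx^[j] y ∈ E := by
    intro j
    induction j with
    | zero => exact hyE.1
    | succ j ih =>
      rw [Function.iterate_succ_apply']
      exact gxE _ ih
  have hp : ∀ j, gx^[j + 1] y ∈ J := fun j => (JE _).2 (Or.inl (horb _))
  refine ⟨h, ⟨L', hL', hl1, hl2⟩, fun j => ⟨gx^[j + 1] y, hp j⟩, fun j => ?_, ?_⟩
  · apply Subtype.ext
    have h1 : gx^[j + 1 + 1] y = gx (gx^[j + 1] y) := Function.iterate_succ_apply' _ _ _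
    have h2 : gx^[j + 1] y ∈ X := by
      rw [Function.iterate_succ_apply']
      exact mem_image_of_mem _ (horb j)
    have h3 := hv 1 ⟨gx^[j + 1 + 1] y, hp (j + 1)⟩ (by
      change gx^[j + 1 + 1] y ∈ P1
      rw [h1]
      exact mem_image_of_mem _ (Or.inl h2))
    rw [h3]
    change gi (gx^[j + 1 + 1] y) = gx^[j + 1] y
    rw [h1, gi_l _ (horb _)]
  · have key : ∀ i j : ℕ, i < j → gx^[i + 1] y ≠ gx^[j + 1] y := by
      intro i
      induction i with
      | zero =>
        intro j hj h1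
        have h2 : gx^[0 + 1] y = gx y := rfl
        rw [h2, Function.iterate_succ_apply'] at h1
        have h3 := injx hyE.1 (horb j) h1
        apply ynX
        rw [h3]
        obtain ⟨j', rfl⟩ := Nat.exists_eq_succ_of_ne_zero (by omega : j ≠ 0)
        rw [Nat.succ_eq_add_one, Function.iterate_succ_apply']
        exact mem_image_of_mem _ (horb j')
      | succ i ih =>
        intro j hj h1
        rw [Function.iterate_succ_apply' gx (i + 1), Function.iterate_succ_apply' gx j] at h1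
        obtain ⟨j', rfl⟩ := Nat.exists_eq_succ_of_ne_zero (by omega : j ≠ 0)
        exact ih j' (by omega) (injx (horb _) (horb _) h1)
    intro i j hij
    have h1 : gx^[i + 1] y = gx^[j + 1] y := congrArg Subtype.val hij
    rcases lt_trichotomy i j with h2 | h2 | h2
    · exact absurd h1 (key i j h2)
    · exact h2
    · exact absurd h1.symm (key j i h2)

end Pool.Agent.W439.QJ.Glue
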